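import Pool.Agent.Helper48.FB.Defs
import Pool.Agent.Helper63.WR2.Inf

/-!
# Project FB: the parameters of the worlds of the infinite theorem
-/

set_option autoImplicit false

namespace Pool.Agent.Helper63.FB

open Filter Asymptotics Pool.Agent.Helper53.WR Pool.Agent.Helper63.WR2
open Pool.Agent.Helper48.FB

noncomputable section

/-- The numbers `s`. -/
def s2 (a : ℕ) : ℕ := Nat.sqrt (14 * Nat.log 2 a) + 1

/-- The conditions that have to hold for all large numbers `a`. -/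
structure Cond2 (c s0 : ℕ) (a : ℕ) : Prop where
  cond : Cond 1 (c + 40) 0 a
  hw42 : 2 ^ 42 ≤ w a
  hw7 : 2 ^ 40 * w a ^ 7 ≤ a
  hs : s0 ≤ s2 a
  hs13 : 13 ≤ s2 a

lemma w_pow_le_self (n : ℕ) : ∀ᶠ x : ℝ in atTop, w x ^ n ≤ x := by
  filter_upwards [tendsto_sqrt_log.eventually_ge_atTop (n : ℝ), eventually_ge_atTop (1 : ℝ)]
    with x h1 hx
  have hx0 : 0 < x := by linarith
  have hl : 0 ≤ Real.log x := Real.log_nonneg hx
  have e1 : Real.log x = √(Real.log x) * √(Real.log x) := (Real.mul_self_sqrt hl).symm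
  calc w x ^ n = Real.exp (n * √(Real.log x)) := by
        unfold w
        rw [← Real.exp_nat_mul]
    _ ≤ Real.exp (Real.log x) := by
        apply Real.exp_le_exp.2
        calc (n : ℝ) * √(Real.log x) ≤ √(Real.log x) * √(Real.log x) :=
              mul_le_mul_of_nonneg_right h1 (Real.sqrt_nonneg _)
          _ = Real.log x := e1.symm
    _ = x := Real.exp_log hx0

lemma le_s2 {m a : ℕ} (h : 2 ^ (m ^ 2) ≤ a) : m ≤ s2 a := by
  have h1 : m ^ 2 ≤ Nat.log 2 a := Nat.le_log_of_pow_le (by norm_num) h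
  have h2 : m ≤ Nat.sqrt (14 * Nat.log 2 a) := by
    rw [Nat.le_sqrt']
    omega
  unfold s2
  omega

lemma eventually_cond2 (c s0 : ℕ) : ∀ᶠ a : ℕ in atTop, Cond2 c s0 a := by
  have hcast : Tendsto (fun a : ℕ => (a : ℝ)) atTop atTop := tendsto_natCast_atTop_atTop
  have h1 := eventually_cond (p := 1) one_pos (c + 40) 0
  have h2 := hcast.eventually (tendsto_w.eventually_ge_atTop (2 ^ 42))
  have h3 := hcast.eventually (w_pow_le_self 8)
  filter_upwards [h1, h2, h3, eventually_ge_atTop (2 ^ (s0 ^ 2)), eventually_ge_atTop (2 ^ (13 ^ 2))]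
    with a h1 h2 h3 h4 h5
  refine ⟨h1, h2, ?_, le_s2 h4, le_s2 h5⟩
  refine le_trans ?_ h3
  rw [pow_succ' (w (a : ℝ)) 7]
  apply mul_le_mul_of_nonneg_right _ (pow_nonneg (w_pos _).le _)
  refine le_trans ?_ h2
  norm_num

/-- `w a ^ 3 ≤ 2 ^ s`. -/
lemma w_cube_le {a : ℕ} (ha : a ≠ 0) (h13 : 13 ≤ s2 a) : w a ^ 3 ≤ (2 : ℝ) ^ s2 a := by
  have h1 : (2 : ℝ) ^ s2 a = Real.exp ((s2 a : ℝ) * Real.log 2) := by
    rw [Real.exp_nat_mul, Real.exp_log (by norm_num)]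
  rw [h1]
  unfold w
  rw [← Real.exp_nat_mul]
  apply Real.exp_le_exp.2
  have h2 := log_lt_natlog ha
  have h3 : (14 * (Nat.log 2 a : ℝ)) + 1 ≤ (s2 a : ℝ) ^ 2 := by
    have := Nat.lt_succ_sqrt' (14 * Nat.log 2 a)
    unfold s2
    exact_mod_cast this
  have h4 : (0.6931471803 : ℝ) < Real.log 2 := Real.log_two_gt_d9
  have h13' : (13 : ℝ) ≤ (s2 a : ℝ) := by exact_mod_cast h13
  have h5 : (169 : ℝ) ≤ (s2 a : ℝ) ^ 2 := by nlinarith
  have h6 : √(Real.log a) ≤ (s2 a : ℝ) * Real.log 2 / 3 := by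
    rw [Real.sqrt_le_left (by positivity)]
    have h7 : (s2 a : ℝ) * Real.log 2 / 3 = (s2 a : ℝ) * Real.log 2 / 3 := rfl
    have h8 : ((s2 a : ℝ) * Real.log 2 / 3) ^ 2
        = ((s2 a : ℝ) ^ 2 * Real.log 2 / 9) * Real.log 2 := by ring
    rw [h8]
    refine h2.le.trans ?_
    apply mul_le_mul_of_nonneg_right _ (by linarith)
    nlinarith
  push_cast
  linarith

/-- `2 ^ s ≤ w a ^ 5`. -/
lemma two_pow_s2_le {a : ℕ} (ha : a ≠ 0) (h1a : 1 ≤ √(Real.log a)) :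
    (2 : ℝ) ^ s2 a ≤ w a ^ 5 := by
  have h1 : (2 : ℝ) ^ s2 a = Real.exp ((s2 a : ℝ) * Real.log 2) := by
    rw [Real.exp_nat_mul, Real.exp_log (by norm_num)]
  rw [h1]
  unfold w
  rw [← Real.exp_nat_mul]
  apply Real.exp_le_exp.2
  have h2 := natlog_mul_log ha
  have h3 : ((Nat.sqrt (14 * Nat.log 2 a) : ℝ)) ^ 2 ≤ 14 * (Nat.log 2 a : ℝ) := by
    exact_mod_cast Nat.sqrt_le' (14 * Nat.log 2 a)
  have h4 : (0.6931471803 : ℝ) < Real.log 2 := Real.log_two_gt_d9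
  have h4' : Real.log 2 < 0.6931471808 := Real.log_two_lt_d9
  have hla : 0 ≤ Real.log a := by
    have : (0 : ℝ) ≤ Nat.log 2 a := Nat.cast_nonneg _
    nlinarith
  have h5 : (Nat.sqrt (14 * Nat.log 2 a) : ℝ) * Real.log 2 ≤ 4 * √(Real.log a) := by
    have h6 : (Nat.sqrt (14 * Nat.log 2 a) : ℝ) * Real.log 2 / 4 ≤ √(Real.log a) := by
      apply Real.le_sqrt_of_sq_le
      have h7 : ((Nat.sqrt (14 * Nat.log 2 a) : ℝ) * Real.log 2 / 4) ^ 2
          = (Nat.sqrt (14 * Nat.log 2 a) : ℝ) ^ 2 * (Real.log 2 ^ 2 / 16) := by ring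
      rw [h7]
      calc (Nat.sqrt (14 * Nat.log 2 a) : ℝ) ^ 2 * (Real.log 2 ^ 2 / 16)
          ≤ 14 * (Nat.log 2 a : ℝ) * (Real.log 2 ^ 2 / 16) :=
            mul_le_mul_of_nonneg_right h3 (by positivity)
        _ = ((Nat.log 2 a : ℝ) * Real.log 2) * (14 * Real.log 2 / 16) := by ring
        _ ≤ ((Nat.log 2 a : ℝ) * Real.log 2) * 1 := by
            apply mul_le_mul_of_nonneg_left _ (by positivity)
            linarith
        _ ≤ Real.log a := by linarith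
    linarith
  have h8 : (s2 a : ℝ) = (Nat.sqrt (14 * Nat.log 2 a) : ℝ) + 1 := by
    unfold s2
    push_cast
    ring
  rw [h8]
  push_cast
  nlinarith

/-- `w a ≤ 2 ^ (s / 2)`. -/
lemma w_le_half {a : ℕ} (ha : a ≠ 0) (h13 : 13 ≤ s2 a) (hw : 10000 ≤ w a) :
    w a ≤ (2 : ℝ) ^ (s2 a / 2) := by
  have h1 := w_cube_le ha h13
  have hw0 := w_pos (a : ℝ)
  have h2 : (2 : ℝ) ^ s2 a ≤ 2 * ((2 : ℝ) ^ (s2 a / 2)) ^ 2 := by
    rw [← pow_mul, ← pow_succ']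
    exact pow_le_pow_right₀ (by norm_num) (by omega)
  by_contra h
  push Not at h
  have h3 : (0 : ℝ) ≤ (2 : ℝ) ^ (s2 a / 2) := by positivity
  have h4 : ((2 : ℝ) ^ (s2 a / 2)) ^ 2 ≤ (w a) ^ 2 := pow_le_pow_left₀ h3 h.le 2
  nlinarith [pow_pos hw0 2]

end

end Pool.Agent.Helper63.FB
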