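import Pool.Agent.Helper63.FB.Inf

/-!
# Project FB: counting the exceptional blocks
-/

set_option autoImplicit false

namespace Pool.Agent.Helper63.FB

open Filter Finset Pool.Agent.Helper53.WR Pool.Agent.Helper63.WR2
open Pool.Agent.Helper48.FB

noncomputable section

/-- The exceptional blocks. -/
def BadS (a u e : ℕ → ℕ) (B : ℕ → Finset ℕ) : Set ℕ :=
  {j | ¬ ∃ k, 4 * a k + thT u e k + 128 * e k ≤ j ∧ j + 1 ≤ zR a u (k + 1) ∧
    ∀ i, i ≤ 5 → j - 4 * a k - i ∉ B k}

/-- The possibly exceptional blocks of world `k`. -/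
def worldBad2 (a u e : ℕ → ℕ) (B : ℕ → Finset ℕ) (k : ℕ) : Finset ℕ :=
  Ico (zR a u (k + 1)) (4 * a (k + 1) + thT u e (k + 1) + 128 * e (k + 1)) ∪
    (range 6 ×ˢ B k).image (fun x => 4 * a k + x.1 + x.2)

theorem badS_bound {a u e t κ f : ℕ → ℕ} (h : Tow a u e t κ f) (B : ℕ → Finset ℕ)
    (J N : ℕ) (hN : J ≤ 4 * a N) :
    (BadS a u e B ∩ Set.Iio J).ncard ≤ (4 * a 0 + thT u e 0 + 128 * e 0)
      + ∑ k ∈ range N, (192 * e (k + 1) + 24 + 6 * (B k).card) := by
  classical
  have hsub : BadS a u e B ∩ Set.Iio J ⊆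
      ((range (4 * a 0 + thT u e 0 + 128 * e 0) ∪ (range N).biUnion (worldBad2 a u e B) :
        Finset ℕ) : Set ℕ) := by
    intro j hj
    obtain ⟨hbad, hjJ⟩ := hj
    rw [Set.mem_Iio] at hjJ
    rw [Finset.mem_coe, mem_union, mem_range, mem_biUnion]
    by_cases h0 : j < 4 * a 0 + thT u e 0 + 128 * e 0
    · exact Or.inl h0
    · right
      obtain ⟨k, hk, h1, h2⟩ := exists_index (fun k => 4 * a k + thT u e k + 128 * e k) j N
        (by omega) (by omega)
      refine ⟨k, mem_range.2 hk, ?_⟩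
      rw [worldBad2, mem_union]
      by_cases h3 : j + 1 ≤ zR a u (k + 1)
      · right
        have h4 : ¬ ∀ i, i ≤ 5 → j - 4 * a k - i ∉ B k := fun h5 =>
          hbad ⟨k, h1, h3, h5⟩
        push Not at h4
        obtain ⟨i, hi, h5⟩ := h4
        rw [mem_image]
        refine ⟨(i, j - 4 * a k - i), ?_, ?_⟩
        · rw [mem_product, mem_range]
          exact ⟨by simp only; omega, h5⟩
        · have h6 := h.e300 k
          simp only at h1 ⊢
          omega
      · left
        rw [mem_Ico]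
        omega
  have hcard : ∀ k, (worldBad2 a u e B k).card ≤ 192 * e (k + 1) + 24 + 6 * (B k).card := by
    intro k
    have h1 : (Ico (zR a u (k + 1)) (4 * a (k + 1) + thT u e (k + 1) + 128 * e (k + 1))).card
        ≤ 192 * e (k + 1) + 24 := by
      rw [Nat.card_Ico]
      unfold zR thT
      omega
    have h2 : ((range 6 ×ˢ B k).image (fun x => 4 * a k + x.1 + x.2)).card
        ≤ 6 * (B k).card := by
      refine card_image_le.trans ?_
      rw [card_product, card_range]
    exact (card_union_le _ _).trans (add_le_add h1 h2)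
  calc (BadS a u e B ∩ Set.Iio J).ncard
      ≤ ((range (4 * a 0 + thT u e 0 + 128 * e 0) ∪ (range N).biUnion (worldBad2 a u e B) :
        Finset ℕ) : Set ℕ).ncard := Set.ncard_le_ncard hsub (Finset.finite_toSet _)
    _ = (range (4 * a 0 + thT u e 0 + 128 * e 0)
          ∪ (range N).biUnion (worldBad2 a u e B)).card := Set.ncard_coe_finset _
    _ ≤ (range (4 * a 0 + thT u e 0 + 128 * e 0)).card
          + ((range N).biUnion (worldBad2 a u e B)).card := card_union_le _ _
    _ ≤ (4 * a 0 + thT u e 0 + 128 * e 0)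
          + ∑ k ∈ range N, (192 * e (k + 1) + 24 + 6 * (B k).card) := by
        rw [card_range]
        apply Nat.add_le_add_left
        exact card_biUnion_le.trans (sum_le_sum fun k _ => hcard k)

/-- `x / (w x) ^ 2`. -/
def G (x : ℝ) : ℝ := x / w x ^ 2

lemma G_eq {x : ℝ} (hx : 0 < x) : G x = Real.exp (Real.log x - 2 * √(Real.log x)) := by
  unfold G w
  rw [← Real.exp_nat_mul, Real.exp_sub, Real.exp_log hx]
  push_cast
  rfl

lemma G_mono {x y : ℝ} (hx : 0 < x) (h1 : 1 ≤ √(Real.log x)) (h : x ≤ y) : G x ≤ G y := by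
  rw [G_eq hx, G_eq (hx.trans_le h)]
  apply Real.exp_le_exp.2
  have hsx : 0 < √(Real.log x) := by linarith
  have hlx : 0 < Real.log x := Real.sqrt_pos.1 hsx
  have hl : Real.log x ≤ Real.log y := Real.log_le_log hx h
  have hs : √(Real.log x) ≤ √(Real.log y) := Real.sqrt_le_sqrt hl
  have e1 : Real.log x = √(Real.log x) * √(Real.log x) := (Real.mul_self_sqrt hlx.le).symm
  have e2 : Real.log y = √(Real.log y) * √(Real.log y) :=
    (Real.mul_self_sqrt (hlx.le.trans hl)).symm
  set a := √(Real.log x)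
  set b := √(Real.log y)
  rw [e1, e2]
  nlinarith

lemma Phi_one_le_G {x : ℝ} (hx : 0 ≤ x) : Phi 1 x ≤ G x := by
  rw [Phi_one]
  unfold G
  exact div_le_div_of_nonneg_left hx (pow_pos (w_pos x) 2)
    (pow_le_pow_right₀ (one_le_w x) (by norm_num))

lemma final_ineq2 (C0 C1 : ℝ) (hC0 : 0 ≤ C0) (hC1 : 0 ≤ C1) :
    ∀ᶠ x : ℝ in atTop, C0 + C1 * (w x * Real.log x) * G x ≤
      x * Real.exp (-(1 / 2 * √(Real.log x))) := by
  filter_upwards [tendsto_sqrt_log.eventually_ge_atTop (4096 * (C0 + C1) + 1),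
    eventually_ge_atTop (1 : ℝ), w_pow_le_self 1] with x h1 hx hwx
  rw [pow_one] at hwx
  have hx0 : 0 < x := by linarith
  have hl : 0 ≤ Real.log x := Real.log_nonneg hx
  have hw := w_pos x
  have e1 : Real.log x = √(Real.log x) ^ 2 := (Real.sq_sqrt hl).symm
  set r := √(Real.log x) with hr
  have hr1 : 1 ≤ r := by
    have : 0 ≤ 4096 * (C0 + C1) := by positivity
    linarith
  -- the key inequality
  have hkey : C1 * r ^ 2 + C0 ≤ Real.exp (r / 2) := by
    have h2 : (r / 8) ^ 4 ≤ Real.exp (r / 2) := by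
      have h3 : Real.exp (r / 2) = Real.exp (r / 8) ^ 4 := by
        rw [← Real.exp_nat_mul]
        congr 1
        push_cast
        ring
      rw [h3]
      apply pow_le_pow_left₀ (by linarith)
      linarith [Real.add_one_le_exp (r / 8)]
    refine le_trans ?_ h2
    have h4 : 4096 * (C0 + C1) ≤ r ^ 2 := by nlinarith
    have h5 : 1 ≤ r ^ 2 := by nlinarith
    have h6 : C1 * r ^ 2 + C0 ≤ (C0 + C1) * r ^ 2 := by nlinarith
    calc C1 * r ^ 2 + C0 ≤ (C0 + C1) * r ^ 2 := h6
      _ ≤ (r ^ 2 / 4096) * r ^ 2 := mul_le_mul_of_nonneg_right (by linarith) (by positivity)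
      _ = (r / 8) ^ 4 := by ring
  have hwr : w x = Real.exp r := rfl
  have hG : w x * G x = x / w x := by
    unfold G
    field_simp
  have h7 : C0 + C1 * (w x * Real.log x) * G x = C0 + C1 * Real.log x * (x / w x) := by
    rw [← hG]
    ring
  rw [h7, e1]
  have h8 : 1 ≤ x / w x := by
    rw [le_div_iff₀ hw]
    linarith
  have h9 : C0 + C1 * r ^ 2 * (x / w x) ≤ (C1 * r ^ 2 + C0) * (x / w x) := by nlinarith
  refine h9.trans ?_
  calc (C1 * r ^ 2 + C0) * (x / w x) ≤ Real.exp (r / 2) * (x / w x) :=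
        mul_le_mul_of_nonneg_right hkey (by linarith)
    _ = x * Real.exp (-(1 / 2 * r)) := by
        have h10 : Real.exp (-(1 / 2 * r)) = Real.exp (r / 2) / Real.exp r := by
          rw [← Real.exp_sub]
          congr 1
          ring
        rw [hwr, h10]
        ring

variable {c s0 a0 : ℕ}

lemma term_le (H : ∀ a, a0 ≤ a → Cond2 c s0 a) (k : ℕ) (B : Finset ℕ)
    (hB : B.card * 2 ^ (s2 (aS a0 k) / 2) ≤ 2 ^ c * laT (uS a0) k) :
    ((192 * eS 1 a0 (k + 1) + 24 + 6 * B.card : ℕ) : ℝ) ≤ (600 + 84 * 2 ^ c) * G (aS a0 k) := by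
  have Hc : ∀ a, a0 ≤ a → Cond 1 (c + 40) 0 a := fun a h => (H a h).cond
  have hcond := H _ (a0_le a0 k)
  have hpos : aS a0 k ≠ 0 := by
    have := hcond.cond.pos
    omega
  have h1 := eS_succ_le Hc le_rfl k
  have h2 : Phi 1 (aS a0 k) ≤ G (aS a0 k) := Phi_one_le_G (Nat.cast_nonneg _)
  have h3 := hcond.cond.hPhi
  have h4 := w_le_half hpos hcond.hs13 hcond.cond.hw
  have hw := w_pos (aS a0 k)
  have h5 : (B.card : ℝ) ≤ 14 * 2 ^ c * G (aS a0 k) := by
    have h6 : (B.card : ℝ) * w (aS a0 k) ≤ 2 ^ c * (14 * ((aS a0 k : ℝ) / w (aS a0 k))) := by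
      calc (B.card : ℝ) * w (aS a0 k) ≤ (B.card : ℝ) * 2 ^ (s2 (aS a0 k) / 2) :=
            mul_le_mul_of_nonneg_left h4 (Nat.cast_nonneg _)
        _ ≤ 2 ^ c * (laT (uS a0) k : ℝ) := by exact_mod_cast hB
        _ ≤ 2 ^ c * (14 * (uS a0 k : ℝ)) := by
            apply mul_le_mul_of_nonneg_left _ (by positivity)
            exact_mod_cast laT_le_u H k
        _ ≤ _ := by
            apply mul_le_mul_of_nonneg_left _ (by positivity)
            exact mul_le_mul_of_nonneg_left (u_le H k) (by norm_num)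
    have h7 : G (aS a0 k) = (aS a0 k : ℝ) / w (aS a0 k) / w (aS a0 k) := by
      unfold G
      rw [div_div, pow_two]
    rw [h7]
    rw [← mul_div_assoc, le_div_iff₀ hw]
    linarith
  push_cast
  linarith

end

end Pool.Agent.Helper63.FB
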