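import Pool.Agent.Helper63.FB.BadCount

/-!
# Project FB: the infinite theorem from the statements of `ftower` and `finite_thm2`
-/

set_option autoImplicit false

namespace Pool.Agent.Helper63.FB

open Filter Finset Pool.Agent.Helper53.WR Pool.Agent.Helper63.WR2
open Pool.Agent.Helper48.FB

/-- The infinite theorem; `htower` is the statement of `ftower` (without the windows), `hfinite`
the one of `finite_thm2`. -/
theorem infinite_of2
    (htower : ∀ a u e t κ w f : ℕ → ℕ, FTow a u e t κ w → ∀ T T' B : ℕ → Finset ℕ,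
      (∀ k, Top (laT u k) (Fs u k) (f k) (w k) (T k) (T' k) (B k)) →
      ∃ A' A : Set ℕ, A' ⊆ A ∧ (∀ n, ∃ x ∈ A, ∃ y ∈ A, x + y = n) ∧
      (∀ k n, n < 2 ^ zR a u k → rep A n ≤ 4 * Cs * a k) ∧
      (∀ n, n < 2 ^ (4 * a 0 + thT u e 0) → rep A' n = 0) ∧
      (∀ k n, 2 ^ (4 * a k + thT u e k) ≤ n → n < 2 ^ (4 * a (k + 1) + thT u e (k + 1)) →
        rep A' n ≤ 4096 ^ 2 * 2592 * f k + 2 * (4096 * (t k * Dk κ k))) ∧
      (∀ k j, 4 * a k + thT u e k + 128 * e k ≤ j → j + 1 ≤ zR a u (k + 1) →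
        (∀ i, i ≤ 5 → j - 4 * a k - i ∉ B k) → CovBlock A' j ∧
          ∀ n, 2 ^ j ≤ n → n < 2 ^ (j + 1) →
            rep A n ≤ 4096 ^ 2 * 2592 * f k + 2 * (4096 * (t k * Dk κ k)) + 2 * t k))
    (hfinite : ∃ c s0 : ℕ, ∀ s, s0 ≤ s → ∀ J : ℕ, 100 ≤ J → 14 * Nat.log 2 J ≤ s ^ 2 →
      ∃ T T' B : Finset ℕ, Top J (Cs * (J + 1)) (2 ^ (c * s)) (J / 2 ^ (s + 2) + c * s) T T' B ∧
        B.card * 2 ^ (s / 2) ≤ 2 ^ c * J ∧ ∀ j ∈ B, j < J) :
    ∃ (A' A : Set ℕ) (C c : ℝ), 0 < c ∧ A' ⊆ A ∧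
    (∀ n, ∃ x ∈ A, ∃ y ∈ A, x + y = n) ∧
    (∀ l n : ℕ, 1 ≤ l → n < 2 ^ l → (rep A n : ℝ) ≤ C * l) ∧
    (∀ l n : ℕ, 2 ≤ l → n < 2 ^ l → (rep A' n : ℝ) ≤ Real.exp (C * √(Real.log l))) ∧
    ∃ Bad : Set ℕ, (∀ j, j ∉ Bad → CovBlock A' j ∧ ∀ n, 2 ^ j ≤ n → n < 2 ^ (j + 1) →
        (rep A n : ℝ) ≤ Real.exp (C * √(Real.log j))) ∧
      ∀ᶠ J : ℕ in atTop,
        ((Bad ∩ Set.Iio J).ncard : ℝ) ≤ J * Real.exp (-(c * √(Real.log J))) := by
  obtain ⟨c, s0, hfin⟩ := hfinite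
  obtain ⟨a0, H⟩ := eventually_atTop.1 (eventually_cond2 c s0)
  have Hc : ∀ a, a0 ≤ a → Cond 1 (c + 40) 0 a := fun a h => (H a h).cond
  have ft := ftow H
  have tw := ft.tow
  have hla100 : ∀ k, 100 ≤ laT (uS a0) k := fun k => by
    have h1 := tw.e300 k
    have h2 := tw.eu k
    unfold laT
    omega
  have hFin : ∀ k, ∃ T T' B : Finset ℕ, Top (laT (uS a0) k) (Fs (uS a0) k) (fS2 c a0 k)
      (wS c a0 k) T T' B ∧
      B.card * 2 ^ (s2 (aS a0 k) / 2) ≤ 2 ^ c * laT (uS a0) k := by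
    intro k
    obtain ⟨T, T', B, h1, h2, -⟩ := hfin (s2 (aS a0 k)) (H _ (a0_le a0 k)).hs
      (laT (uS a0) k) (hla100 k) (by
        have h1 : Nat.log 2 (laT (uS a0) k) ≤ Nat.log 2 (aS a0 k) :=
          Nat.log_mono_right (laT_le Hc le_rfl k)
        have h2 : 14 * Nat.log 2 (aS a0 k) < (Nat.sqrt (14 * Nat.log 2 (aS a0 k)) + 1) ^ 2 :=
          Nat.lt_succ_sqrt' _
        unfold s2
        omega)
    exact ⟨T, T', B, h1, h2⟩
  choose T T' B hT hB using hFin
  obtain ⟨A', A, hAA, hcov, hA1, hA2, hA3, hA4⟩ := htower _ _ _ _ _ _ _ ft T T' B hT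
  -- the constant
  set C : ℝ := max ((5 * c + 8 : ℕ) : ℝ) ((8 * Cs * (aS a0 0 + 1) : ℕ) : ℝ) with hC
  have hC1 : ((5 * c + 8 : ℕ) : ℝ) ≤ C := le_max_left _ _
  have hC2 : ((8 * Cs * (aS a0 0 + 1) : ℕ) : ℝ) ≤ C := le_max_right _ _
  have hC0 : 0 ≤ C := le_trans (Nat.cast_nonneg _) hC1
  have hexp : ∀ k l : ℕ, aS a0 k ≤ l → w (aS a0 k) ^ (5 * c + 8) ≤ Real.exp (C * √(Real.log l)) := by
    intro k l hkl
    have hx0 : (0 : ℝ) < ((aS a0 k : ℕ) : ℝ) := by
      exact_mod_cast (Hc (aS a0 k) (a0_le a0 k)).pos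
    have h6 : (aS a0 k : ℝ) ≤ l := by exact_mod_cast hkl
    unfold w
    rw [← Real.exp_nat_mul]
    apply Real.exp_le_exp.2
    have h11 : √(Real.log (aS a0 k)) ≤ √(Real.log l) :=
      Real.sqrt_le_sqrt (Real.log_le_log hx0 h6)
    exact mul_le_mul hC1 h11 (Real.sqrt_nonneg _) hC0
  refine ⟨A', A, C, 1 / 2, by norm_num, hAA, hcov, ?_, ?_, BadS (aS a0) (uS a0) (eS 1 a0) B, ?_, ?_⟩
  · -- the order of magnitude of all numbers
    intro l n hl hn
    have hl1 : (1 : ℝ) ≤ l := by exact_mod_cast hl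
    have hex : ∃ k, l ≤ zR (aS a0) (uS a0) k := ⟨l, by
      have h1 := le_aS Hc l
      have h2 := tw.e300 l
      have h3 := tw.eu l
      unfold zR
      omega⟩
    classical
    obtain ⟨k, hk, hmin⟩ : ∃ k, l ≤ zR (aS a0) (uS a0) k ∧
        ∀ m, m < k → zR (aS a0) (uS a0) m < l :=
      ⟨Nat.find hex, Nat.find_spec hex, fun m hm => by
        have := Nat.find_min hex hm
        omega⟩
    have h1 := hA1 k n (hn.trans_le (Nat.pow_le_pow_right (by norm_num) hk))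
    have h2 : 4 * Cs * aS a0 k ≤ 8 * Cs * (aS a0 0 + 1) * l := by
      rcases Nat.eq_zero_or_pos k with h0 | h0
      · rw [h0]
        calc 4 * Cs * aS a0 0 ≤ 8 * Cs * (aS a0 0 + 1) * 1 := by
              rw [mul_one]
              exact Nat.mul_le_mul (by omega) (by omega)
          _ ≤ _ := Nat.mul_le_mul_left _ hl
      · obtain ⟨m, rfl⟩ := Nat.exists_eq_succ_of_ne_zero h0.ne'
        have h3 := hmin m (Nat.lt_succ_self m)
        have h4 := tw.step m
        have h5 := tw.ua m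
        have h6 := tw.e300 m
        have h7 := tw.eu m
        have h8 : aS a0 m ≤ l := by
          unfold zR at h3
          omega
        have h9 : aS a0 (m + 1) ≤ 2 * l := by omega
        calc 4 * Cs * aS a0 (m + 1) ≤ 4 * Cs * (2 * l) := Nat.mul_le_mul_left _ h9
          _ = 8 * Cs * 1 * l := by ring
          _ ≤ 8 * Cs * (aS a0 0 + 1) * l := by
              apply Nat.mul_le_mul_right
              apply Nat.mul_le_mul_left
              omega
    calc (rep A n : ℝ) ≤ ((8 * Cs * (aS a0 0 + 1) * l : ℕ) : ℝ) := by exact_mod_cast h1.trans h2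
      _ = ((8 * Cs * (aS a0 0 + 1) : ℕ) : ℝ) * l := by push_cast; ring
      _ ≤ C * l := mul_le_mul_of_nonneg_right hC2 (by linarith)
  · -- the thin part
    intro l n hl hn
    by_cases h0 : n < 2 ^ (4 * aS a0 0 + thT (uS a0) (eS 1 a0) 0)
    · rw [hA2 n h0]
      simpa using (Real.exp_pos _).le
    · obtain ⟨k, -, h1, h2⟩ := exists_index
        (fun k => 2 ^ (4 * aS a0 k + thT (uS a0) (eS 1 a0) k)) n n (by omega) (by
          have h3 := le_aS Hc n
          have h4 : n < 2 ^ n := Nat.lt_two_pow_self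
          exact h4.trans_le (Nat.pow_le_pow_right (by norm_num) (by omega)))
      have h3 := hA3 k n h1 h2
      have h4 : 4 * aS a0 k + thT (uS a0) (eS 1 a0) k < l := by
        have h5 : 2 ^ (4 * aS a0 k + thT (uS a0) (eS 1 a0) k) < 2 ^ l := h1.trans_lt hn
        exact (Nat.pow_lt_pow_iff_right (by norm_num)).1 h5
      have h8 := rep_le H tw k
      have h9 : (rep A' n : ℝ) ≤ ((4096 ^ 2 * 2592 * fS2 c a0 k
          + 2 * (4096 * (tS 1 a0 k * Dk (kS a0) k)) + 2 * tS 1 a0 k : ℕ) : ℝ) := by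
        exact_mod_cast h3.trans (Nat.le_add_right _ _)
      exact (h9.trans h8).trans (hexp k l (by omega))
  · -- the good blocks
    intro j hj
    have hj' : ∃ k, 4 * aS a0 k + thT (uS a0) (eS 1 a0) k + 128 * eS 1 a0 k ≤ j ∧
        j + 1 ≤ zR (aS a0) (uS a0) (k + 1) ∧ ∀ i, i ≤ 5 → j - 4 * aS a0 k - i ∉ B k := by
      by_contra h
      exact hj h
    obtain ⟨k, h1, h2, h3⟩ := hj'
    obtain ⟨h4, h5⟩ := hA4 k j h1 h2 h3
    refine ⟨h4, fun n hn1 hn2 => ?_⟩
    have h6 : (rep A n : ℝ) ≤ ((4096 ^ 2 * 2592 * fS2 c a0 k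
        + 2 * (4096 * (tS 1 a0 k * Dk (kS a0) k)) + 2 * tS 1 a0 k : ℕ) : ℝ) := by
      exact_mod_cast h5 n hn1 hn2
    exact (h6.trans (rep_le H tw k)).trans (hexp k j (by omega))
  · -- the number of the exceptional blocks
    have hcast : Tendsto (fun a : ℕ => (a : ℝ)) atTop atTop := tendsto_natCast_atTop_atTop
    have hev := hcast.eventually (final_ineq2
      ((4 * aS a0 0 + thT (uS a0) (eS 1 a0) 0 + 128 * eS 1 a0 0 : ℕ) : ℝ)
      (6 * (600 + 84 * 2 ^ c)) (Nat.cast_nonneg _) (by positivity))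
    filter_upwards [hev, eventually_ge_atTop (4 * aS a0 0 + 1)] with J hJ hJ1
    have hex : ∃ N, J ≤ 4 * aS a0 N := ⟨J, by have := le_aS Hc J; omega⟩
    classical
    set N := Nat.find hex with hN
    have hN1 : J ≤ 4 * aS a0 N := Nat.find_spec hex
    have hNpos : N ≠ 0 := by
      intro h
      rw [h] at hN1
      omega
    obtain ⟨K, hK⟩ := Nat.exists_eq_succ_of_ne_zero hNpos
    have hK1 : 4 * aS a0 K < J := by
      have := Nat.find_min hex (m := K) (by omega)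
      omega
    have hbd := badS_bound tw B J N hN1
    have haK0 : (0 : ℝ) < ((aS a0 K : ℕ) : ℝ) := by
      exact_mod_cast (Hc (aS a0 K) (a0_le a0 K)).pos
    have hKJ : ((aS a0 K : ℕ) : ℝ) ≤ (J : ℝ) := by
      have : aS a0 K ≤ J := by omega
      exact_mod_cast this
    have hJa : a0 ≤ J := by
      have := a0_le a0 0
      omega
    have hcJ := Hc J hJa
    have hterm : ∀ k ∈ range N, ((192 * eS 1 a0 (k + 1) + 24 + 6 * (B k).card : ℕ) : ℝ)
        ≤ (600 + 84 * 2 ^ c) * G J := by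
      intro k hk
      rw [mem_range] at hk
      have hkK : aS a0 k ≤ aS a0 K := aS_mono a0 (by omega)
      have hkJ : ((aS a0 k : ℕ) : ℝ) ≤ (J : ℝ) := by
        have : aS a0 k ≤ J := by omega
        exact_mod_cast this
      have hck := Hc (aS a0 k) (a0_le a0 k)
      have hk0 : (0 : ℝ) < ((aS a0 k : ℕ) : ℝ) := by exact_mod_cast hck.pos
      exact (term_le H k (B k) (hB k)).trans
        (mul_le_mul_of_nonneg_left (G_mono hk0 hck.one hkJ) (by positivity))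
    have hsum : ((∑ k ∈ range N, (192 * eS 1 a0 (k + 1) + 24 + 6 * (B k).card) : ℕ) : ℝ)
        ≤ (N : ℝ) * ((600 + 84 * 2 ^ c) * G J) := by
      rw [Nat.cast_sum]
      have h1 := sum_le_card_nsmul (range N) _ _ hterm
      rw [card_range, nsmul_eq_mul] at h1
      exact h1
    have hNle : (N : ℝ) ≤ 6 * (w J * Real.log J) := by
      have h1 := index_le Hc tw K
      have h2 : (N : ℝ) = K + 1 := by rw [hK]; push_cast; ring
      have h3 : w (aS a0 K) ≤ w J := w_mono haK0 hKJ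
      have h4 : Real.log (aS a0 K) ≤ Real.log J := Real.log_le_log haK0 hKJ
      have h5 : 0 ≤ Real.log (aS a0 K) :=
        Real.log_nonneg (by exact_mod_cast (Hc (aS a0 K) (a0_le a0 K)).pos)
      have h6 : w (aS a0 K) * Real.log (aS a0 K) ≤ w J * Real.log J :=
        mul_le_mul h3 h4 h5 (w_pos _).le
      have h7 : 1 ≤ Real.log J := by
        have h8 := hcJ.one
        by_contra h9
        push Not at h9
        have h10 : √(Real.log J) < 1 := by
          rw [Real.sqrt_lt' one_pos]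
          simpa using h9
        linarith
      have h8 := one_le_w (J : ℝ)
      have h9 : 1 ≤ w J * Real.log J := by nlinarith
      rw [h2]
      linarith
    have hG0 : 0 ≤ G J := div_nonneg (Nat.cast_nonneg _) (pow_nonneg (w_pos _).le _)
    have hfinal : (((BadS (aS a0) (uS a0) (eS 1 a0) B ∩ Set.Iio J).ncard : ℕ) : ℝ)
        ≤ ((4 * aS a0 0 + thT (uS a0) (eS 1 a0) 0 + 128 * eS 1 a0 0 : ℕ) : ℝ)
          + 6 * (600 + 84 * 2 ^ c) * (w J * Real.log J) * G J := by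
      have h1 : (((BadS (aS a0) (uS a0) (eS 1 a0) B ∩ Set.Iio J).ncard : ℕ) : ℝ)
          ≤ ((4 * aS a0 0 + thT (uS a0) (eS 1 a0) 0 + 128 * eS 1 a0 0 : ℕ) : ℝ)
          + ((∑ k ∈ range N, (192 * eS 1 a0 (k + 1) + 24 + 6 * (B k).card) : ℕ) : ℝ) := by
        exact_mod_cast hbd
      have h2 : (N : ℝ) * ((600 + 84 * 2 ^ c) * G J)
          ≤ 6 * (w J * Real.log J) * ((600 + 84 * 2 ^ c) * G J) :=
        mul_le_mul_of_nonneg_right hNle (by positivity)
      have h3 : 6 * (w J * Real.log J) * ((600 + 84 * 2 ^ c) * G J)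
          = 6 * (600 + 84 * 2 ^ c) * (w J * Real.log J) * G J := by ring
      linarith
    exact hfinal.trans hJ

end Pool.Agent.Helper63.FB
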