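import Pool.Agent.Helper63.FB.Params

/-!
# Project FB: the infinite theorem from the statements of `ftower` and `finite_thm2`
-/

set_option autoImplicit false

namespace Pool.Agent.Helper63.FB

open Filter Finset Pool.Agent.Helper53.WR Pool.Agent.Helper63.WR2
open Pool.Agent.Helper48.FB

noncomputable section

variable {c s0 a0 : ℕ}

/-- The exponents of the window bounds. -/
def wS (c a0 k : ℕ) : ℕ := laT (uS a0) k / 2 ^ (s2 (aS a0 k) + 2) + c * s2 (aS a0 k)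

/-- The bounds for the representations of the thin sets. -/
def fS2 (c a0 k : ℕ) : ℕ := 2 ^ (c * s2 (aS a0 k))

lemma laT_le_u (H : ∀ a, a0 ≤ a → Cond2 c s0 a) (k : ℕ) :
    laT (uS a0) k ≤ 14 * uS a0 k := by
  have h2 := (facts (fun a h => (H a h).cond) le_rfl k).2.2.1
  unfold laT
  omega

lemma u_le (H : ∀ a, a0 ≤ a → Cond2 c s0 a) (k : ℕ) :
    (uS a0 k : ℝ) ≤ (aS a0 k : ℝ) / w (aS a0 k) := by
  have hc := (H (aS a0 k) (a0_le a0 k)).cond
  have := hc.hPsi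
  exact Nat.floor_le (show (0 : ℝ) ≤ Psi (aS a0 k) by linarith)

lemma Phi_one (x : ℝ) : Phi 1 x = x / w x ^ 4 := by
  unfold Phi
  rw [Real.rpow_one]

lemma tS_le_one (H : ∀ a, a0 ≤ a → Cond2 c s0 a) (k : ℕ) :
    (tS 1 a0 k : ℝ) ≤ 2 * w (aS a0 k) ^ 4 := by
  have h := tS_le (ρ := 0) (c := c + 40) (s0 := 0) (a0 := a0)
    (by simpa using fun a h => (H a h).cond) le_rfl k
  simpa using h

lemma tDk_le (H : ∀ a, a0 ≤ a → Cond2 c s0 a) {e t f : ℕ → ℕ}
    (tw : Tow (aS a0) (uS a0) e t (kS a0) f) (k : ℕ) :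
    ((tS 1 a0 k * Dk (kS a0) k : ℕ) : ℝ) ≤ 2 ^ 23 * w (aS a0 k) ^ 7 := by
  have Hc : ∀ a, a0 ≤ a → Cond 1 (c + 40) 0 a := fun a h => (H a h).cond
  have ht := tS_le_one H k
  have hκ := kS_le (a0 := a0) k
  have hk := index_le Hc tw k
  have hpos := (Hc (aS a0 k) (a0_le a0 k)).pos
  have hlog := log_le_two_w (x := (aS a0 k : ℝ)) (by exact_mod_cast hpos)
  have hw1 := one_le_w (aS a0 k)
  set W : ℝ := w (aS a0 k)
  have hk2 : (k : ℝ) ≤ 10 * W ^ 2 := by nlinarith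
  have hW0 : 0 < W := by linarith
  have hk3 : (k : ℝ) + 1 ≤ 11 * W ^ 2 := by nlinarith
  unfold Dk
  push_cast
  calc (tS 1 a0 k : ℝ) * (((k : ℝ) + 1) * (8192 * (8 * (kS a0 k : ℝ))))
      ≤ (2 * W ^ 4) * ((11 * W ^ 2) * (8192 * (8 * (5 * W)))) := by
        apply mul_le_mul ht _ (by positivity) (by positivity)
        apply mul_le_mul hk3 (by linarith) (by positivity) (by positivity)
    _ = 7208960 * W ^ 7 := by ring
    _ ≤ 2 ^ 23 * W ^ 7 := by
        apply mul_le_mul_of_nonneg_right (by norm_num) (by positivity)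

theorem ftow (H : ∀ a, a0 ≤ a → Cond2 c s0 a) :
    FTow (aS a0) (uS a0) (eS 1 a0) (tS 1 a0) (kS a0) (wS c a0) := by
  have Hc : ∀ a, a0 ≤ a → Cond 1 (c + 40) 0 a := fun a h => (H a h).cond
  have tw0 : Tow (aS a0) (uS a0) (eS 1 a0) (tS 1 a0) (kS a0) (fS 0 (c + 40) a0) :=
    tow Hc one_pos le_rfl zero_le_one
  have hlogle : ∀ k, (2 * (c + 40) + 6) * (Nat.log 2 (aS a0 k) + 1) + 1 ≤ eS 1 a0 k := fun k => by
    have h1 := (Hc _ (a0_le a0 k)).hlog
    have h2 : Phi 1 (aS a0 k) ≤ (eS 1 a0 k : ℝ) := Nat.le_ceil _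
    exact_mod_cast h1.trans h2
  refine ⟨⟨tw0.step, tw0.e300, tw0.eu, tw0.ua, tw0.uu, tw0.uu', tw0.ee', tw0.kk', tw0.h20, ?_,
    tw0.ht, tw0.hκ⟩, ?_, ?_, ?_⟩
  · intro k
    have h1 : aS a0 k + 1 ≤ 2 ^ (Nat.log 2 (aS a0 k) + 1) :=
      Nat.lt_pow_succ_log_self (by norm_num) _
    have h2 := hlogle k
    have h3 : 64 + (Nat.log 2 (aS a0 k) + 1) ≤ eS 1 a0 k := by
      have h4 : 86 * (Nat.log 2 (aS a0 k) + 1)
          ≤ (2 * (c + 40) + 6) * (Nat.log 2 (aS a0 k) + 1) :=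
        Nat.mul_le_mul_right _ (by omega)
      omega
    have h5 := laT_le Hc le_rfl k
    unfold Fs Cs
    calc 2 ^ 64 * (laT (uS a0) k + 1) ≤ 2 ^ 64 * 2 ^ (Nat.log 2 (aS a0 k) + 1) :=
          Nat.mul_le_mul_left _ (by omega)
      _ = 2 ^ (64 + (Nat.log 2 (aS a0 k) + 1)) := (pow_add _ _ _).symm
      _ ≤ 2 ^ eS 1 a0 k := Nat.pow_le_pow_right (by norm_num) h3
  · intro k
    have h1 := u_le H k
    have h2 := (H _ (a0_le a0 k)).hw42
    have h3 : (2 ^ 42 * uS a0 k : ℝ) ≤ (aS a0 k : ℝ) := by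
      have hw := w_pos (aS a0 k)
      rw [le_div_iff₀ hw] at h1
      calc (2 ^ 42 * uS a0 k : ℝ) ≤ w (aS a0 k) * uS a0 k :=
            mul_le_mul_of_nonneg_right h2 (Nat.cast_nonneg _)
        _ = uS a0 k * w (aS a0 k) := mul_comm _ _
        _ ≤ _ := h1
    exact_mod_cast h3
  · intro k
    have h1 := tDk_le H tw0 k
    have h2 := (H _ (a0_le a0 k)).hw7
    have h3 : ((2 ^ 13 * (tS 1 a0 k * Dk (kS a0) k) : ℕ) : ℝ) ≤ (aS a0 k : ℝ) := by
      rw [Nat.cast_mul]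
      push_cast at h1 ⊢
      have h4 : (0 : ℝ) ≤ w (aS a0 k) ^ 7 := pow_nonneg (w_pos _).le _
      linarith
    exact_mod_cast h3
  · intro k
    have hcond := H _ (a0_le a0 k)
    have hpos : aS a0 k ≠ 0 := by
      have := hcond.cond.pos
      omega
    have h1 := w_cube_le hpos hcond.hs13
    have h2 := u_le H k
    have h3 := laT_le_u H k
    have h4 : Phi 1 (aS a0 k) ≤ (eS 1 a0 k : ℝ) := Nat.le_ceil _
    rw [Phi_one] at h4
    have hw := w_pos (aS a0 k)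
    have hA : laT (uS a0) k / 2 ^ (s2 (aS a0 k) + 2) ≤ 4 * eS 1 a0 k := by
      have h5 : ((laT (uS a0) k / 2 ^ (s2 (aS a0 k) + 2) : ℕ) : ℝ) ≤ ((4 * eS 1 a0 k : ℕ) : ℝ) := by
        refine (Nat.cast_div_le).trans ?_
        push_cast
        rw [div_le_iff₀ (by positivity)]
        have h6 : ((laT (uS a0) k : ℕ) : ℝ) ≤ 14 * ((aS a0 k : ℝ) / w (aS a0 k)) := by
          have : ((laT (uS a0) k : ℕ) : ℝ) ≤ ((14 * uS a0 k : ℕ) : ℝ) := by exact_mod_cast h3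
          push_cast at this
          linarith
        have h7 : (aS a0 k : ℝ) / w (aS a0 k) = (aS a0 k : ℝ) / w (aS a0 k) ^ 4
            * w (aS a0 k) ^ 3 := by
          field_simp
        have h8 : 0 ≤ (aS a0 k : ℝ) / w (aS a0 k) ^ 4 :=
          div_nonneg (Nat.cast_nonneg _) (pow_nonneg hw.le _)
        calc ((laT (uS a0) k : ℕ) : ℝ) ≤ 14 * ((aS a0 k : ℝ) / w (aS a0 k)) := h6
          _ = 14 * ((aS a0 k : ℝ) / w (aS a0 k) ^ 4 * w (aS a0 k) ^ 3) := by rw [← h7]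
          _ ≤ 14 * ((eS 1 a0 k : ℝ) * 2 ^ (s2 (aS a0 k))) := by
              apply mul_le_mul_of_nonneg_left _ (by norm_num)
              exact mul_le_mul h4 h1 (pow_nonneg hw.le _) (Nat.cast_nonneg _)
          _ ≤ 4 * (eS 1 a0 k : ℝ) * 2 ^ (s2 (aS a0 k) + 2) := by
              rw [pow_add]
              have : (0 : ℝ) ≤ (eS 1 a0 k : ℝ) * 2 ^ (s2 (aS a0 k)) := by positivity
              linarith
      exact_mod_cast h5
    have hB : c * s2 (aS a0 k) ≤ 14 * eS 1 a0 k := by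
      have h5 := hlogle k
      have h6 : s2 (aS a0 k) ≤ 14 * (Nat.log 2 (aS a0 k) + 1) := by
        have := Nat.sqrt_le_self (14 * Nat.log 2 (aS a0 k))
        unfold s2
        omega
      calc c * s2 (aS a0 k) ≤ c * (14 * (Nat.log 2 (aS a0 k) + 1)) := Nat.mul_le_mul_left _ h6
        _ = 14 * (c * (Nat.log 2 (aS a0 k) + 1)) := by ring
        _ ≤ 14 * ((2 * (c + 40) + 6) * (Nat.log 2 (aS a0 k) + 1)) := by
            apply Nat.mul_le_mul_left
            apply Nat.mul_le_mul_right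
            omega
        _ ≤ 14 * eS 1 a0 k := by omega
    unfold wS
    omega

/-- The bounds for the representations. -/
lemma rep_le (H : ∀ a, a0 ≤ a → Cond2 c s0 a) {e t f : ℕ → ℕ}
    (tw : Tow (aS a0) (uS a0) e t (kS a0) f) (k : ℕ) :
    ((4096 ^ 2 * 2592 * fS2 c a0 k + 2 * (4096 * (tS 1 a0 k * Dk (kS a0) k)) + 2 * tS 1 a0 k : ℕ) : ℝ)
      ≤ w (aS a0 k) ^ (5 * c + 8) := by
  have hcond := H _ (a0_le a0 k)
  have hpos : aS a0 k ≠ 0 := by
    have := hcond.cond.pos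
    omega
  have h1 := tDk_le H tw k
  have ht := tS_le_one H k
  have h2 := two_pow_s2_le hpos hcond.cond.one
  have h42 := hcond.hw42
  have hw1 := one_le_w (aS a0 k)
  have hf : ((fS2 c a0 k : ℕ) : ℝ) ≤ w (aS a0 k) ^ (5 * c) := by
    unfold fS2
    push_cast
    rw [mul_comm c, pow_mul, pow_mul]
    exact pow_le_pow_left₀ (by positivity) h2 _
  rw [Nat.cast_add, Nat.cast_add, Nat.cast_mul, Nat.cast_mul, Nat.cast_mul, Nat.cast_mul 2]
  set W : ℝ := w (aS a0 k)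
  have hA : W ^ (5 * c) ≤ W ^ (5 * c + 7) := pow_le_pow_right₀ hw1 (by omega)
  have hB : W ^ 7 ≤ W ^ (5 * c + 7) := pow_le_pow_right₀ hw1 (by omega)
  have hC : W ^ 4 ≤ W ^ (5 * c + 7) := pow_le_pow_right₀ hw1 (by omega)
  have hD : W ^ (5 * c + 8) = W ^ (5 * c + 7) * W := pow_succ _ _
  have hE : 0 ≤ W ^ (5 * c + 7) := by positivity
  have hF : W ^ (5 * c + 7) * 2 ^ 42 ≤ W ^ (5 * c + 7) * W := mul_le_mul_of_nonneg_left h42 hE
  rw [hD]
  push_cast at h1 ⊢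
  nlinarith

end

end Pool.Agent.Helper63.FB
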