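import Pool.Agent.Helper48.FB.St.Stubs
import Pool.Agent.Helper63.FB.Final

/-!
# FB-D2: the infinite theorem from the stubs `ftower` and `finite_thm2`
-/

set_option autoImplicit false

namespace Pool.Agent.Helper63.FB

open Filter Pool.Agent.Helper53.WR
open Pool.Agent.Helper48.FB

theorem infinite_thm2 : ∃ (A' A : Set ℕ) (C c : ℝ), 0 < c ∧ A' ⊆ A ∧
    (∀ n, ∃ x ∈ A, ∃ y ∈ A, x + y = n) ∧
    (∀ l n : ℕ, 1 ≤ l → n < 2 ^ l → (rep A n : ℝ) ≤ C * l) ∧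
    (∀ l n : ℕ, 2 ≤ l → n < 2 ^ l → (rep A' n : ℝ) ≤ Real.exp (C * √(Real.log l))) ∧
    ∃ Bad : Set ℕ, (∀ j, j ∉ Bad → CovBlock A' j ∧ ∀ n, 2 ^ j ≤ n → n < 2 ^ (j + 1) →
        (rep A n : ℝ) ≤ Real.exp (C * √(Real.log j))) ∧
      ∀ᶠ J : ℕ in atTop,
        ((Bad ∩ Set.Iio J).ncard : ℝ) ≤ J * Real.exp (-(c * √(Real.log J))) :=
  infinite_of2 (fun _ _ _ _ _ _ _ h T T' B hT => by
    obtain ⟨A', A, h1, h2, h3, h4, h5, h6, -⟩ := St.ftower h T T' B hT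
    exact ⟨A', A, h1, h2, h3, h4, h5, h6⟩) St.finite_thm2

end Pool.Agent.Helper63.FB
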